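import Mathlib

set_option autoImplicit false

/-!
# Nondegenerate closed curves: definitions
-/

namespace Pool.Agent.W561.Frenet

open scoped ContDiff

/-- A smooth closed curve `S¹ = ℝ / 2πℤ → ℝⁿ`: a `C^∞` map of period `2π`. -/
def IsClosedCurve (n : ℕ) (γ : ℝ → EuclideanSpace ℝ (Fin n)) : Prop :=
  ContDiff ℝ ∞ γ ∧ Function.Periodic γ (2 * Real.pi)

/-- A nondegenerate closed curve: the first `n` derivatives are linearly independent at every
parameter. -/
def IsNondegenerate (n : ℕ) (γ : ℝ → EuclideanSpace ℝ (Fin n)) : Prop :=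
  IsClosedCurve n γ ∧
    ∀ t : ℝ, LinearIndependent ℝ (fun k : Fin n => iteratedDeriv ((k : ℕ) + 1) γ t)

/-- The plane unit circle traversed `m` times, `t ↦ (cos mt, sin mt, 0, …, 0)`. -/
noncomputable def circleCurve (n m : ℕ) (t : ℝ) : EuclideanSpace ℝ (Fin n) :=
  WithLp.toLp 2 (fun i : Fin n =>
    if (i : ℕ) = 0 then Real.cos (m * t) else if (i : ℕ) = 1 then Real.sin (m * t) else 0)

/-- Every `C^∞` neighbourhood of the `m` times traversed circle contains a nondegenerate closed
curve: for every order `N` and every `ε > 0` there is a nondegenerate closed curve whose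
derivatives of order at most `N` differ from those of the `m` times traversed circle by less
than `ε`, at every parameter. -/
def IsPerturbable (n m : ℕ) : Prop :=
  ∀ (N : ℕ) (ε : ℝ), 0 < ε → ∃ γ : ℝ → EuclideanSpace ℝ (Fin n), IsNondegenerate n γ ∧
    ∀ k ≤ N, ∀ t : ℝ, ‖iteratedDeriv k γ t - iteratedDeriv k (circleCurve n m) t‖ < ε

/-- `μ(n)`: the least `m ≥ 1` such that every `C^∞` neighbourhood of the `m` times traversed
circle contains a nondegenerate closed curve. -/
noncomputable def mu (n : ℕ) : ℕ := sInf {m : ℕ | 1 ≤ m ∧ IsPerturbable n m}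

/-- The Frenet frame `(e_1, …, e_n)` of a curve (indexed by `Fin n`, so `e_{i+1}` is the value at
`i`), obtained by the Gram-Schmidt process from the first `n` derivatives. -/
noncomputable def frame (n : ℕ) (γ : ℝ → EuclideanSpace ℝ (Fin n)) (t : ℝ) (i : Fin n) :
    EuclideanSpace ℝ (Fin n) :=
  InnerProductSpace.gramSchmidtNormed ℝ (fun k : Fin n => iteratedDeriv ((k : ℕ) + 1) γ t) i

/-- The curvature `κ_{i+1}`, `0 ≤ i < n - 1`, at the parameter `t`:
`⟨e_{i+1}', e_{i+2}⟩ / |γ'|` with the derivative in `t`, that is `⟨d e_{i+1} / ds, e_{i+2}⟩`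
for the arc length `s`. -/
noncomputable def curvature (n : ℕ) (γ : ℝ → EuclideanSpace ℝ (Fin n)) (i : Fin (n - 1))
    (t : ℝ) : ℝ :=
  inner ℝ (deriv (fun s => frame n γ s ⟨(i : ℕ), by omega⟩) t)
    (frame n γ t ⟨(i : ℕ) + 1, by omega⟩) / ‖deriv γ t‖

/-- The length of the Frenet frame, `∫ (κ_1² + ⋯ + κ_{n-1}²)^{1/2} ds`. -/
noncomputable def frameLength (n : ℕ) (γ : ℝ → EuclideanSpace ℝ (Fin n)) : ℝ :=
  ∫ t in (0 : ℝ)..(2 * Real.pi),
    Real.sqrt (∑ i : Fin (n - 1), curvature n γ i t ^ 2) * ‖deriv γ t‖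

end Pool.Agent.W561.Frenet
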