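import Pool.Agent.W561.Frenet.Perturb

set_option autoImplicit false

/-!
# Fenchel's theorem and the length of the Frenet frame
-/

namespace Pool.Agent.W561.Frenet

open scoped ContDiff
open MeasureTheory Set

section Fenchel

variable {E : Type*} [NormedAddCommGroup E] [InnerProductSpace ℝ E]

lemma inner_deriv_eq_zero {T T' : ℝ → E} (hT : ∀ t, HasDerivAt T (T' t) t) (h1 : ∀ t, ‖T t‖ = 1)
    (t : ℝ) : inner ℝ (T t) (T' t) = (0 : ℝ) := by
  have h2 := (hT t).inner ℝ (hT t)
  have h3 : (fun t => inner ℝ (T t) (T t)) = fun _ : ℝ => (1 : ℝ) := by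
    funext s
    rw [real_inner_self_eq_norm_sq, h1]; norm_num
  rw [h3] at h2
  have h4 := h2.unique (hasDerivAt_const t (1 : ℝ))
  rw [real_inner_comm (T t) (T' t)] at h4
  linarith

/-- Two points of a spherical curve of length `A < π` make an angle at most `A`. -/
lemma cos_le_inner {T T' : ℝ → E} (hT : ∀ t, HasDerivAt T (T' t) t) (hc : Continuous T')
    (h1 : ∀ t, ‖T t‖ = 1) {a b : ℝ} (hab : a ≤ b) (hA : (∫ t in a..b, ‖T' t‖) < Real.pi) :
    Real.cos (∫ t in a..b, ‖T' t‖) ≤ inner ℝ (T a) (T b) := by
  set A : ℝ → ℝ := fun t => ∫ s in a..t, ‖T' s‖ with hAdef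
  have hcn : Continuous fun t => ‖T' t‖ := hc.norm
  have hAd : ∀ t, HasDerivAt A (‖T' t‖) t := fun t =>
    intervalIntegral.integral_hasDerivAt_right (hcn.intervalIntegrable _ _)
      (hcn.stronglyMeasurableAtFilter _ _) hcn.continuousAt
  have hA0 : A a = 0 := by simp [hAdef]
  have hAmono : ∀ t ∈ Icc a b, 0 ≤ A t ∧ A t ≤ A b := by
    intro t ht
    constructor
    · exact intervalIntegral.integral_nonneg ht.1 fun _ _ => norm_nonneg _
    · have h2 : A b = A t + ∫ s in t..b, ‖T' s‖ :=
        (intervalIntegral.integral_add_adjacent_intervals (hcn.intervalIntegrable _ _)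
          (hcn.intervalIntegrable _ _)).symm
      rw [h2]
      have := intervalIntegral.integral_nonneg (μ := volume) ht.2
        (f := fun s => ‖T' s‖) fun _ _ => norm_nonneg _
      linarith
  -- the estimate with a parameter
  have key : ∀ η : ℝ, 0 < η → A b + η + η * (b - a) < Real.pi →
      Real.cos (A b + η + η * (b - a)) ≤ inner ℝ (T a) (T b) := by
    intro η hη hηπ
    have hmain := image_le_of_deriv_right_lt_deriv_boundary (a := a) (b := b)
      (f := fun t => - inner ℝ (T a) (T t)) (f' := fun t => - inner ℝ (T a) (T' t))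
      (B := fun t => - Real.cos (A t + η + η * (t - a)))
      (B' := fun t => Real.sin (A t + η + η * (t - a)) * (‖T' t‖ + η)) ?_ ?_ ?_ ?_ ?_
    · have h2 := hmain (right_mem_Icc.2 hab)
      linarith
    · refine Continuous.continuousOn ?_
      have : Continuous T := continuous_iff_continuousAt.2 fun t => (hT t).continuousAt
      fun_prop
    · intro x _
      have h2 := (hasDerivAt_const x (T a)).inner ℝ (hT x)
      have h3 : HasDerivAt (fun t => - inner ℝ (T a) (T t)) (- inner ℝ (T a) (T' x)) x := by
        refine h2.neg.congr_deriv ?_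
        simp
      exact h3.hasDerivWithinAt
    · simp only [hA0, sub_self, mul_zero, add_zero, zero_add]
      rw [real_inner_self_eq_norm_sq, h1]
      have := Real.cos_le_one η
      linarith
    · intro x
      have h2 : HasDerivAt (fun t => A t + η + η * (t - a)) (‖T' x‖ + η) x := by
        have h3 := ((hAd x).add_const η).add (((hasDerivAt_id x).sub_const a).const_mul η)
        refine h3.congr_deriv ?_
        ring
      refine ((Real.hasDerivAt_cos _).comp x h2).neg.congr_deriv ?_
      ring
    · intro x hx hxB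
      set θ := A x + η + η * (x - a) with hθ
      have hxI : x ∈ Icc a b := ⟨hx.1, hx.2.le⟩
      have hθ0 : 0 < θ := by
        have := (hAmono x hxI).1
        have := mul_nonneg hη.le (sub_nonneg.2 hx.1)
        linarith
      have hθπ : θ < Real.pi := by
        have := (hAmono x hxI).2
        have := mul_le_mul_of_nonneg_left (sub_le_sub_right hx.2.le a) hη.le
        linarith
      have hsin : 0 < Real.sin θ := Real.sin_pos_of_pos_of_lt_pi hθ0 hθπ
      have hu : inner ℝ (T a) (T x) = Real.cos θ := by
        have : - inner ℝ (T a) (T x) = - Real.cos θ := hxB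
        linarith
      -- the orthogonal component
      set Y : E := T a - Real.cos θ • T x with hY
      have hYn : ‖Y‖ = Real.sin θ := by
        have h2 : ‖Y‖ ^ 2 = Real.sin θ ^ 2 := by
          rw [← real_inner_self_eq_norm_sq, hY, inner_sub_left, inner_sub_right, inner_sub_right]
          simp only [inner_smul_left, inner_smul_right, real_inner_self_eq_norm_sq, h1, hu,
            real_inner_comm (T a) (T x), conj_trivial]
          have := Real.sin_sq_add_cos_sq θ
          linarith
        have h3 := abs_eq_abs.2 (sq_eq_sq_iff_abs_eq_abs _ _ |>.1 h2 |> abs_eq_abs.1)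
        rwa [abs_norm, abs_of_pos hsin] at h3
      have h0 := inner_deriv_eq_zero hT h1 x
      have h2 : inner ℝ (T a) (T' x) = inner ℝ Y (T' x) := by
        rw [hY, inner_sub_left, inner_smul_left, h0]; simp
      have h3 : |inner ℝ Y (T' x)| ≤ ‖Y‖ * ‖T' x‖ := abs_real_inner_le_norm _ _
      have h4 : - inner ℝ (T a) (T' x) ≤ Real.sin θ * ‖T' x‖ := by
        rw [h2, ← hYn]
        exact (neg_le_abs _).trans h3
      have h5 : Real.sin θ * ‖T' x‖ < Real.sin θ * (‖T' x‖ + η) := by
        apply mul_lt_mul_of_pos_left _ hsin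
        linarith
      exact lt_of_le_of_lt h4 h5
  -- the limit
  have hlim : Filter.Tendsto (fun η : ℝ => Real.cos (A b + η + η * (b - a))) (nhdsWithin 0 (Ioi 0))
      (nhds (Real.cos (A b))) := by
    have h2 : Continuous (fun η : ℝ => Real.cos (A b + η + η * (b - a))) := by fun_prop
    have h3 := h2.tendsto 0
    simp only [add_zero, zero_mul] at h3
    exact h3.mono_left nhdsWithin_le_nhds
  refine le_of_tendsto hlim ?_
  have h2 : ∀ᶠ η : ℝ in nhdsWithin 0 (Ioi 0), A b + η + η * (b - a) < Real.pi := by
    have h3 : Continuous (fun η : ℝ => A b + η + η * (b - a)) := by fun_prop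
    have h4 := (h3.tendsto 0).mono_left (nhdsWithin_le_nhds (s := Ioi 0))
    simp only [add_zero, zero_mul] at h4
    exact h4.eventually_lt_const hA
  filter_upwards [h2, self_mem_nhdsWithin] with η h3 h4
  exact key η h4 h3

lemma cos_add_cos_pos {α β : ℝ} (hα : 0 ≤ α) (hβ : 0 ≤ β) (h : α + β < Real.pi) :
    0 < Real.cos α + Real.cos β := by
  have h1 : Real.cos (Real.pi - β) < Real.cos α :=
    Real.cos_lt_cos_of_nonneg_of_le_pi hα (by linarith) (by linarith)
  rw [Real.cos_pi_sub] at h1
  linarith

/-- **Fenchel's theorem**: the tangent indicatrix of a closed curve has length at least `2π`. -/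
theorem fenchel {T T' γ : ℝ → E} {ρ : ℝ → ℝ} (hT : ∀ t, HasDerivAt T (T' t) t)
    (hc : Continuous T') (h1 : ∀ t, ‖T t‖ = 1) {P : ℝ} (hP : 0 < P) (hTP : T P = T 0)
    (hρ : ∀ t, 0 < ρ t) (hγ : ∀ t, HasDerivAt γ (ρ t • T t) t) (hγP : γ P = γ 0) :
    2 * Real.pi ≤ ∫ t in (0:ℝ)..P, ‖T' t‖ := by
  by_contra hlt
  push Not at hlt
  have hcn : Continuous fun t => ‖T' t‖ := hc.norm
  have hii : ∀ a b : ℝ, IntervalIntegrable (fun t => ‖T' t‖) volume a b :=
    fun a b => hcn.intervalIntegrable _ _
  set A : ℝ → ℝ := fun t => ∫ s in (0:ℝ)..t, ‖T' s‖ with hAdef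
  have hAc : Continuous A := intervalIntegral.continuous_primitive (fun a b => hii a b) 0
  have hA0 : A 0 = 0 := by simp [hAdef]
  have hnn : ∀ a b : ℝ, a ≤ b → 0 ≤ ∫ s in a..b, ‖T' s‖ := fun a b hab =>
    intervalIntegral.integral_nonneg hab fun _ _ => norm_nonneg _
  -- the halving point
  obtain ⟨t1, ht1, hAt1⟩ : ∃ t1 ∈ Icc 0 P, A t1 = A P / 2 := by
    have := intermediate_value_Icc hP.le hAc.continuousOn
    have h2 : A P / 2 ∈ Icc (A 0) (A P) := by
      have h3 := hnn 0 P hP.le
      rw [hA0]
      constructor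
      · show 0 ≤ A P / 2
        exact div_nonneg h3 (by norm_num)
      · show A P / 2 ≤ A P
        have : 0 ≤ A P := h3
        linarith
    exact this h2
  have hAP : A P < 2 * Real.pi := hlt
  have hsplit : ∀ a b c : ℝ, (∫ s in a..b, ‖T' s‖) + (∫ s in b..c, ‖T' s‖) = ∫ s in a..c, ‖T' s‖ :=
    fun a b c => intervalIntegral.integral_add_adjacent_intervals (hii _ _) (hii _ _)
  set M : E := T 0 + T t1 with hM
  have hpos : ∀ t ∈ Icc 0 P, 0 < inner ℝ M (T t) := by
    intro t ht
    rw [hM, inner_add_left]
    rcases le_total t t1 with h | h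
    · have e := hsplit 0 t t1
      have hα := hnn 0 t ht.1
      have hβ := hnn t t1 h
      have hs : (∫ s in (0:ℝ)..t, ‖T' s‖) + (∫ s in t..t1, ‖T' s‖) < Real.pi := by
        rw [e]
        show A t1 < Real.pi
        rw [hAt1]; linarith
      have h2 := cos_le_inner hT hc h1 ht.1 (by linarith)
      have h3 := cos_le_inner hT hc h1 h (by linarith)
      rw [real_inner_comm] at h3
      have h4 := cos_add_cos_pos hα hβ hs
      linarith
    · have e := hsplit t1 t P
      have hα := hnn t1 t h
      have hβ := hnn t P ht.2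
      have hs : (∫ s in t1..t, ‖T' s‖) + (∫ s in t..P, ‖T' s‖) < Real.pi := by
        rw [e]
        have e2 := hsplit 0 t1 P
        have e3 : (∫ s in (0:ℝ)..t1, ‖T' s‖) = A P / 2 := hAt1
        have e4 : (∫ s in (0:ℝ)..P, ‖T' s‖) = A P := rfl
        linarith
      have h2 := cos_le_inner hT hc h1 h (by linarith)
      have h3 := cos_le_inner hT hc h1 ht.2 (by linarith)
      rw [hTP, real_inner_comm] at h3
      have h4 := cos_add_cos_pos hα hβ hs
      linarith
  -- the height function is strictly increasing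
  have hg : ∀ t, HasDerivAt (fun t => inner ℝ M (γ t)) (ρ t * inner ℝ M (T t)) t := by
    intro t
    have h2 := (hasDerivAt_const t M).inner ℝ (hγ t)
    refine h2.congr_deriv ?_
    simp [inner_smul_right]
  have hmono : StrictMonoOn (fun t => inner ℝ M (γ t)) (Icc 0 P) := by
    apply strictMonoOn_of_deriv_pos (convex_Icc 0 P)
    · exact fun t _ => (hg t).continuousAt.continuousWithinAt
    · intro t ht
      rw [(hg t).deriv]
      exact mul_pos (hρ t) (hpos t (interior_subset ht))
  have := hmono (left_mem_Icc.2 hP.le) (right_mem_Icc.2 hP.le) hP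
  simp only [hγP] at this
  exact lt_irrefl _ this

end Fenchel

end Pool.Agent.W561.Frenet
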