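import Pool.Agent.W561.Frenet.Fenchel

set_option autoImplicit false

/-!
# The length of the Frenet frame of a nondegenerate closed curve exceeds `2π`
-/

namespace Pool.Agent.W561.Frenet

open scoped ContDiff
open MeasureTheory Set InnerProductSpace

section Frame

variable {n : ℕ} {v : ℝ → Fin n → EuclideanSpace ℝ (Fin n)}

lemma contDiff_gramSchmidt (hv : ∀ k, ContDiff ℝ ∞ fun t => v t k)
    (hli : ∀ t, LinearIndependent ℝ (v t)) (i : Fin n) :
    ContDiff ℝ ∞ (fun t => gramSchmidt ℝ (v t) i) := by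
  refine WellFoundedLT.induction (motive := fun i => ContDiff ℝ ∞ (fun t => gramSchmidt ℝ (v t) i)) i ?_
  intro i ih
  have h : (fun t => gramSchmidt ℝ (v t) i) = fun t => v t i - ∑ j ∈ Finset.Iio i,
      (inner ℝ (gramSchmidt ℝ (v t) j) (v t i) / ‖gramSchmidt ℝ (v t) j‖ ^ 2) •
        gramSchmidt ℝ (v t) j := by
    funext t
    have := gramSchmidt_def'' ℝ (v t) i
    simp only [RCLike.ofReal_real_eq_id, id] at this
    exact eq_sub_of_add_eq this.symm
  rw [h]
  refine (hv i).sub (ContDiff.sum fun j hj => ?_)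
  have hj' : j < i := Finset.mem_Iio.1 hj
  have h1 := ih j hj'
  have h2 : ∀ t, ‖gramSchmidt ℝ (v t) j‖ ^ 2 ≠ 0 := fun t =>
    pow_ne_zero _ (norm_ne_zero_iff.2 (gramSchmidt_ne_zero j (hli t)))
  exact ((h1.inner ℝ (hv i)).div (h1.norm_sq ℝ) h2).smul h1

lemma normed_eq (w : Fin n → EuclideanSpace ℝ (Fin n)) (i : Fin n) :
    gramSchmidtNormed ℝ w i = (‖gramSchmidt ℝ w i‖)⁻¹ • gramSchmidt ℝ w i := by
  simp [gramSchmidtNormed]

lemma contDiff_normed (hv : ∀ k, ContDiff ℝ ∞ fun t => v t k)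
    (hli : ∀ t, LinearIndependent ℝ (v t)) (i : Fin n) :
    ContDiff ℝ ∞ (fun t => gramSchmidtNormed ℝ (v t) i) := by
  simp only [normed_eq]
  have h1 := contDiff_gramSchmidt hv hli i
  have h2 : ∀ t, gramSchmidt ℝ (v t) i ≠ 0 := fun t => gramSchmidt_ne_zero i (hli t)
  exact ((h1.norm ℝ h2).inv fun t => norm_ne_zero_iff.2 (h2 t)).smul h1

end Frame

section Main

variable {m : ℕ} {γ : ℝ → EuclideanSpace ℝ (Fin (m + 3))}

/-- the derivatives -/
noncomputable def vv (γ : ℝ → EuclideanSpace ℝ (Fin (m + 3))) (t : ℝ) (k : Fin (m + 3)) :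
    EuclideanSpace ℝ (Fin (m + 3)) := iteratedDeriv ((k : ℕ) + 1) γ t

lemma contDiff_vv (hγ : IsNondegenerate (m + 3) γ) (k : Fin (m + 3)) :
    ContDiff ℝ ∞ fun t => vv γ t k := by
  have h := ContDiff.iterate_deriv ((k : ℕ) + 1) hγ.1.1
  rw [← iteratedDeriv_eq_iterate] at h
  exact h

lemma hasDerivAt_vv (hγ : IsNondegenerate (m + 3) γ) {k l : Fin (m + 3)}
    (hkl : (l : ℕ) = k + 1) (t : ℝ) : HasDerivAt (fun t => vv γ t k) (vv γ t l) t := by
  have h1 : DifferentiableAt ℝ (fun t => vv γ t k) t :=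
    (contDiff_vv hγ k).differentiable (by simp) t
  have h2 := h1.hasDerivAt
  have h3 : deriv (fun t => vv γ t k) t = vv γ t l := by
    simp only [vv, hkl]
    rw [iteratedDeriv_succ (n := (k : ℕ) + 1)]
  rwa [h3] at h2

/-- The main computation: with `T = e_0`. -/
lemma frame_facts (hγ : IsNondegenerate (m + 3) γ) :
    (∀ t, HasDerivAt γ (‖deriv γ t‖ • frame (m + 3) γ t 0) t) ∧
    (∀ t, 0 < ‖deriv γ t‖) ∧ (∀ t, ‖frame (m + 3) γ t 0‖ = 1) ∧
    (∀ t, ‖deriv (fun s => frame (m + 3) γ s 0) t‖ ^ 2 =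
      inner ℝ (deriv (fun s => frame (m + 3) γ s 0) t) (frame (m + 3) γ t 1) ^ 2) ∧
    (∀ t, inner ℝ (deriv (fun s => frame (m + 3) γ s 1) t) (frame (m + 3) γ t 2) ≠ (0 : ℝ)) := by
  have hli := hγ.2
  have hv := contDiff_vv hγ
  have hli' : ∀ t, LinearIndependent ℝ (vv γ t) := hli
  have hfr : ∀ t i, frame (m + 3) γ t i = gramSchmidtNormed ℝ (vv γ t) i := fun _ _ => rfl
  have hsm : ∀ i, ContDiff ℝ ∞ (fun t => frame (m + 3) γ t i) := fun i => contDiff_normed hv hli' i
  have hon : ∀ t, Orthonormal ℝ (fun i => frame (m + 3) γ t i) := fun t =>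
    gramSchmidtNormed_orthonormal (hli' t)
  have hg0 : ∀ t, gramSchmidt ℝ (vv γ t) 0 = deriv γ t := by
    intro t
    have : gramSchmidt ℝ (vv γ t) ⊥ = vv γ t ⊥ := gramSchmidt_bot ℝ _
    have h2 : (⊥ : Fin (m + 3)) = 0 := rfl
    rw [h2] at this
    rw [this]
    simp [vv, iteratedDeriv_one]
  have hd0 : ∀ t, 0 < ‖deriv γ t‖ := by
    intro t
    rw [← hg0 t]
    exact norm_pos_iff.2 (gramSchmidt_ne_zero 0 (hli' t))
  have hT1 : ∀ t, ‖frame (m + 3) γ t 0‖ = 1 := fun t => (hon t).1 0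
  have hγd : ∀ t, HasDerivAt γ (‖deriv γ t‖ • frame (m + 3) γ t 0) t := by
    intro t
    have h1 : ‖deriv γ t‖ • frame (m + 3) γ t 0 = deriv γ t := by
      rw [hfr, normed_eq, hg0, smul_smul, mul_inv_cancel₀ (hd0 t).ne', one_smul]
    rw [h1]
    exact (hγ.1.1.differentiable (by simp) t).hasDerivAt
  -- orthogonality of the frame and the derivatives
  have hperp : ∀ t (i j : Fin (m + 3)), i < j → inner ℝ (frame (m + 3) γ t j) (vv γ t i) = (0 : ℝ) := by
    intro t i j hij
    rw [hfr, normed_eq, inner_smul_left, gramSchmidt_inv_triangular ℝ (vv γ t) hij]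
    simp
  have hTd : ∀ t, HasDerivAt (fun s => frame (m + 3) γ s 0)
      (deriv (fun s => frame (m + 3) γ s 0) t) t := fun t =>
    ((hsm 0).differentiable (by simp) t).hasDerivAt
  have hTT' := inner_deriv_eq_zero hTd hT1
  -- orthogonality of `T'` to the later vectors
  have hTj : ∀ t (j : Fin (m + 3)), 1 < j →
      inner ℝ (frame (m + 3) γ t j) (deriv (fun s => frame (m + 3) γ s 0) t) = (0 : ℝ) := by
    intro t j hj
    have h0j : (0 : Fin (m + 3)) < j := lt_trans (by simp) hj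
    have hγ' : ContDiff ℝ ∞ (deriv γ) := by
      have := hv 0
      simpa [vv, iteratedDeriv_one] using this
    have hρ : DifferentiableAt ℝ (fun s => ‖deriv γ s‖) t := by
      have h1 : ContDiff ℝ ∞ (fun s => ‖deriv γ s‖) :=
        hγ'.norm ℝ fun s => norm_pos_iff.1 (hd0 s)
      exact h1.differentiable (by simp) t
    have h1 := hρ.hasDerivAt.smul (hTd t)
    have h2 : (fun s => ‖deriv γ s‖) • (fun s => frame (m + 3) γ s 0) = fun s => vv γ s 0 := by
      funext s
      have : ‖deriv γ s‖ • frame (m + 3) γ s 0 = deriv γ s := (hγd s).unique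
        ((hγ.1.1.differentiable (by simp) s).hasDerivAt)
      simp only [Pi.smul_apply', this]
      simp [vv, iteratedDeriv_one]
    rw [h2] at h1
    have h3 := h1.unique (hasDerivAt_vv hγ (k := 0) (l := 1) (by simp) t)
    have h4 := hperp t 1 j hj
    rw [← h3, inner_add_right, inner_smul_right, inner_smul_right] at h4
    have h5 : inner ℝ (frame (m + 3) γ t j) (frame (m + 3) γ t 0) = (0 : ℝ) :=
      (hon t).2 h0j.ne'
    rw [h5, mul_zero, add_zero] at h4
    exact (mul_eq_zero.1 h4).resolve_left (hd0 t).ne'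
  refine ⟨hγd, hd0, hT1, ?_, ?_⟩
  · intro t
    have hcard : Fintype.card (Fin (m + 3)) = Module.finrank ℝ (EuclideanSpace ℝ (Fin (m + 3))) := by
      simp
    set b := basisOfOrthonormalOfCardEqFinrank (hon t) hcard with hb
    have hbc : (b : Fin (m + 3) → EuclideanSpace ℝ (Fin (m + 3))) = fun i => frame (m + 3) γ t i :=
      coe_basisOfOrthonormalOfCardEqFinrank (hon t) hcard
    have hbo : Orthonormal ℝ b := by rw [hbc]; exact hon t
    have h1 := (b.toOrthonormalBasis hbo).sum_sq_norm_inner_right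
      (deriv (fun s => frame (m + 3) γ s 0) t)
    rw [← h1, Fin.sum_univ_succ, Fin.sum_univ_succ]
    simp only [Module.Basis.coe_toOrthonormalBasis, hbc]
    have h2 : ∀ k : Fin (m + 1), inner ℝ (frame (m + 3) γ t k.succ.succ)
        (deriv (fun s => frame (m + 3) γ s 0) t) = (0 : ℝ) := fun k => hTj t _ (by
          rw [Fin.lt_def]; simp)
    have h3 : (Fin.succ 0 : Fin (m + 3)) = 1 := rfl
    simp only [h2, hTT' t, h3]
    simp [real_inner_comm]
  · intro t
    have hI : Finset.Iio (1 : Fin (m + 3)) = {0} := by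
      ext i
      rw [Finset.mem_Iio, Finset.mem_singleton, Fin.lt_def, Fin.ext_iff]
      simp
    -- `e_1 = α v_1 - β v_0`
    set α : ℝ → ℝ := fun s => (‖gramSchmidt ℝ (vv γ s) 1‖)⁻¹ with hα
    set β : ℝ → ℝ := fun s => (‖gramSchmidt ℝ (vv γ s) 1‖)⁻¹ *
      (inner ℝ (gramSchmidt ℝ (vv γ s) 0) (vv γ s 1) / ‖gramSchmidt ℝ (vv γ s) 0‖ ^ 2) with hβ
    have he : ∀ s, frame (m + 3) γ s 1 = α s • vv γ s 1 - β s • vv γ s 0 := by
      intro s
      have h1 := gramSchmidt_def'' ℝ (vv γ s) 1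
      rw [hI, Finset.sum_singleton] at h1
      simp only [RCLike.ofReal_real_eq_id, id] at h1
      have h2 := eq_sub_of_add_eq h1.symm
      have h3 : gramSchmidt ℝ (vv γ s) 0 = vv γ s 0 := by
        rw [hg0]; simp [vv, iteratedDeriv_one]
      have h4 : frame (m + 3) γ s 1 = α s • gramSchmidt ℝ (vv γ s) 1 := by
        rw [hfr, normed_eq]
      have h5 : β s = α s * (inner ℝ (gramSchmidt ℝ (vv γ s) 0) (vv γ s 1) /
        ‖gramSchmidt ℝ (vv γ s) 0‖ ^ 2) := rfl
      rw [h4, h5, mul_smul, ← smul_sub]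
      congr 1
      conv_rhs => rw [← h3]
      exact h2
    have hgs := contDiff_gramSchmidt hv hli'
    have hgn : ∀ i s, gramSchmidt ℝ (vv γ s) i ≠ 0 := fun i s => gramSchmidt_ne_zero i (hli' s)
    have hαs : ContDiff ℝ ∞ α :=
      ((hgs 1).norm ℝ (hgn 1)).inv fun s => norm_ne_zero_iff.2 (hgn 1 s)
    have hβs : ContDiff ℝ ∞ β :=
      hαs.mul (((hgs 0).inner ℝ (hv 1)).div ((hgs 0).norm_sq ℝ)
        fun s => pow_ne_zero _ (norm_ne_zero_iff.2 (hgn 0 s)))
    have hαd := (hαs.differentiable (by simp) t).hasDerivAt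
    have hβd := (hβs.differentiable (by simp) t).hasDerivAt
    have hv2 : ((2 : Fin (m + 3)) : ℕ) = 2 := rfl
    have hv1 : ((1 : Fin (m + 3)) : ℕ) = 1 := rfl
    have h12 : (1 : Fin (m + 3)) < 2 := by rw [Fin.lt_def, hv1, hv2]; norm_num
    have h02 : (0 : Fin (m + 3)) < 2 := lt_trans (by simp) h12
    have hd := (hαd.smul (hasDerivAt_vv hγ (k := 1) (l := 2) (by rw [hv1, hv2]) t)).sub
      (hβd.smul (hasDerivAt_vv hγ (k := 0) (l := 1) (by simp) t))
    have hfe : (fun s => frame (m + 3) γ s 1) =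
        (α • fun s => vv γ s 1) - (β • fun s => vv γ s 0) := by
      funext s
      rw [he s]
      rfl
    rw [hfe, hd.deriv, real_inner_comm]
    simp only [inner_add_right, inner_sub_right, inner_smul_right, hperp t 1 2 h12,
      hperp t 0 2 h02]
    have h22 : inner ℝ (frame (m + 3) γ t 2) (vv γ t 2) ≠ (0 : ℝ) := by
      rw [hfr, normed_eq, inner_smul_left]
      refine mul_ne_zero (by simpa using hgn 2 t) ?_
      have h1 := gramSchmidt_def'' ℝ (vv γ t) 2
      rw [h1, inner_add_right, inner_sum, Finset.sum_eq_zero, add_zero]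
      · rw [real_inner_self_eq_norm_sq]
        exact pow_ne_zero _ (norm_ne_zero_iff.2 (hgn 2 t))
      · intro i hi
        rw [inner_smul_right, gramSchmidt_orthogonal ℝ (vv γ t) (Finset.mem_Iio.1 hi).ne', mul_zero]
    have hα0 : α t ≠ 0 := inv_ne_zero (norm_ne_zero_iff.2 (hgn 1 t))
    simpa using ⟨hα0, h22⟩

theorem frameLength_gt (hγ : IsNondegenerate (m + 3) γ) :
    2 * Real.pi < frameLength (m + 3) γ := by
  obtain ⟨hγd, hd0, hT1, hTn, h12⟩ := frame_facts hγ
  have hsm : ∀ i, ContDiff ℝ ∞ (fun t => frame (m + 3) γ t i) :=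
    fun i => contDiff_normed (contDiff_vv hγ) hγ.2 i
  have hcd : ∀ i, Continuous (deriv (fun t => frame (m + 3) γ t i)) := fun i =>
    (hsm i).continuous_deriv (by simp)
  -- periodicity
  have hper : ∀ k, Function.Periodic (iteratedDeriv k γ) (2 * Real.pi) := by
    intro k
    induction k with
    | zero => simpa using hγ.1.2
    | succ k ih =>
      intro t
      rw [iteratedDeriv_succ]
      have h1 : (fun s => iteratedDeriv k γ (s + 2 * Real.pi)) = iteratedDeriv k γ := funext ih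
      rw [← deriv_comp_add_const, h1]
  have hframe : ∀ i, frame (m + 3) γ (2 * Real.pi) i = frame (m + 3) γ 0 i := by
    intro i
    unfold frame
    have : (fun k : Fin (m + 3) => iteratedDeriv ((k : ℕ) + 1) γ (2 * Real.pi)) =
      fun k : Fin (m + 3) => iteratedDeriv ((k : ℕ) + 1) γ 0 := by
      funext k
      have := hper ((k : ℕ) + 1) 0
      rwa [zero_add] at this
    rw [this]
  have hF := fenchel (T := fun t => frame (m + 3) γ t 0)
    (T' := deriv (fun t => frame (m + 3) γ t 0)) (γ := γ) (ρ := fun t => ‖deriv γ t‖)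
    (fun t => ((hsm 0).differentiable (by simp) t).hasDerivAt) (hcd 0) hT1 Real.two_pi_pos
    (hframe 0) hd0 hγd (by have := hγ.1.2 0; rwa [zero_add] at this)
  refine hF.trans_lt ?_
  -- the integrand
  have hint : ∀ t, Real.sqrt (∑ i : Fin (m + 3 - 1), curvature (m + 3) γ i t ^ 2) * ‖deriv γ t‖ =
      Real.sqrt (∑ i : Fin (m + 2), inner ℝ (deriv (fun s => frame (m + 3) γ s i.castSucc) t)
        (frame (m + 3) γ t i.succ) ^ 2) := by
    intro t
    have h1 : ∀ i : Fin (m + 3 - 1), curvature (m + 3) γ i t ^ 2 =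
      inner ℝ (deriv (fun s => frame (m + 3) γ s (Fin.castSucc (n := m + 2) i)) t)
        (frame (m + 3) γ t (Fin.succ (n := m + 2) i)) ^ 2 / ‖deriv γ t‖ ^ 2 := by
      intro i
      unfold curvature
      rw [div_pow]
      rfl
    rw [Finset.sum_congr rfl fun i _ => h1 i, ← Finset.sum_div,
      Real.sqrt_div' _ (by positivity), Real.sqrt_sq (norm_nonneg _), div_mul_cancel₀ _ (hd0 t).ne']
    rfl
  unfold frameLength
  simp only [hint]
  have hcont : Continuous fun t =>
      Real.sqrt (∑ i : Fin (m + 2), inner ℝ (deriv (fun s => frame (m + 3) γ s i.castSucc) t)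
        (frame (m + 3) γ t i.succ) ^ 2) := by
    refine Real.continuous_sqrt.comp (continuous_finsetSum _ fun i _ => ?_)
    exact ((hcd _).inner (hsm _).continuous).pow 2
  have hlt : ∀ t, ‖deriv (fun s => frame (m + 3) γ s 0) t‖ <
      Real.sqrt (∑ i : Fin (m + 2), inner ℝ (deriv (fun s => frame (m + 3) γ s i.castSucc) t)
        (frame (m + 3) γ t i.succ) ^ 2) := by
    intro t
    apply Real.lt_sqrt_of_sq_lt
    rw [hTn t, Fin.sum_univ_succ, Fin.sum_univ_succ]
    have h1 : (0 : ℝ) < inner ℝ (deriv (fun s => frame (m + 3) γ s 1) t) (frame (m + 3) γ t 2) ^ 2 :=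
      sq_pos_of_ne_zero (h12 t)
    have h2 : (0 : ℝ) ≤ ∑ i : Fin m, inner ℝ (deriv (fun s => frame (m + 3) γ s
      (Fin.castSucc (Fin.succ (Fin.succ i)))) t)
        (frame (m + 3) γ t (Fin.succ (Fin.succ (Fin.succ i)))) ^ 2 :=
      Finset.sum_nonneg fun _ _ => sq_nonneg _
    have h3 : (Fin.castSucc (0 : Fin (m + 2))) = (0 : Fin (m + 3)) := rfl
    have h4 : (Fin.succ (0 : Fin (m + 2))) = (1 : Fin (m + 3)) := rfl
    have h5 : (Fin.castSucc (Fin.succ (0 : Fin (m + 1)))) = (1 : Fin (m + 3)) := rfl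
    have h6 : (Fin.succ (Fin.succ (0 : Fin (m + 1)))) = (2 : Fin (m + 3)) := rfl
    rw [h3, h4, h5, h6]
    linarith
  exact intervalIntegral.integral_lt_integral_of_continuousOn_of_le_of_exists_lt Real.two_pi_pos
    (hcd 0).norm.continuousOn hcont.continuousOn (fun t _ => (hlt t).le)
    ⟨0, left_mem_Icc.2 Real.two_pi_pos.le, hlt 0⟩

end Main

end Pool.Agent.W561.Frenet
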