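import Pool.Agent.W561.Frenet.Defs

set_option autoImplicit false

/-!
# Nondegenerate perturbations of the circle
-/

namespace Pool.Agent.W561.Frenet

open scoped ContDiff
open MeasureTheory Set

/-- nondegeneracy in coordinates -/
def Nd (n : ℕ) (f : Fin n → ℝ → ℝ) : Prop :=
  (∀ i, ContDiff ℝ ∞ (f i)) ∧ (∀ i, Function.Periodic (f i) (2 * Real.pi)) ∧
    ∀ (t : ℝ) (a : Fin n → ℝ), (∀ k < n, ∑ i, a i * iteratedDeriv (k + 1) (f i) t = 0) → a = 0

/-- the curve with given coordinates -/
noncomputable def cv {n : ℕ} (f : Fin n → ℝ → ℝ) (t : ℝ) : EuclideanSpace ℝ (Fin n) :=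
  WithLp.toLp 2 (fun i => f i t)

lemma contDiff_cv {n : ℕ} {f : Fin n → ℝ → ℝ} (hf : ∀ i, ContDiff ℝ ∞ (f i)) :
    ContDiff ℝ ∞ (cv f) := by
  have h1 : ContDiff ℝ ∞ (fun t => fun i => f i t) := contDiff_pi.2 hf
  exact (PiLp.continuousLinearEquiv 2 ℝ (fun _ : Fin n => ℝ)).symm.contDiff.comp h1

lemma contDiff_iteratedDeriv {f : ℝ → ℝ} (hf : ContDiff ℝ ∞ f) (k : ℕ) :
    ContDiff ℝ ∞ (iteratedDeriv k f) := by
  rw [iteratedDeriv_eq_iterate]
  exact ContDiff.iterate_deriv k hf

lemma iteratedDeriv_cv {n : ℕ} {f : Fin n → ℝ → ℝ} (hf : ∀ i, ContDiff ℝ ∞ (f i)) (k : ℕ) :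
    iteratedDeriv k (cv f) = cv (fun i => iteratedDeriv k (f i)) := by
  induction k with
  | zero => ext t i; simp [cv]
  | succ k ih =>
    rw [iteratedDeriv_succ, ih]
    funext t
    have h1 : HasDerivAt (fun t => fun i => iteratedDeriv k (f i) t)
        (fun i => iteratedDeriv (k + 1) (f i) t) t := by
      rw [hasDerivAt_pi]
      intro i
      rw [iteratedDeriv_succ]
      exact ((contDiff_iteratedDeriv (hf i) k).differentiable (by simp)).differentiableAt.hasDerivAt
    have h2 := ((PiLp.continuousLinearEquiv 2 ℝ (fun _ : Fin n => ℝ)).symm.hasFDerivAt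
      (x := fun i => iteratedDeriv k (f i) t)).comp_hasDerivAt t h1
    exact h2.deriv

lemma isNondegenerate_cv {n : ℕ} {f : Fin n → ℝ → ℝ} (hf : Nd n f) : IsNondegenerate n (cv f) := by
  obtain ⟨h1, h2, h3⟩ := hf
  refine ⟨⟨contDiff_cv h1, fun t => ?_⟩, fun t => ?_⟩
  · simp only [cv]
    congr 1
    funext i
    exact h2 i t
  · have h4 : (fun k : Fin n => iteratedDeriv ((k : ℕ) + 1) (cv f) t) =
        (WithLp.linearEquiv 2 ℝ (Fin n → ℝ)).symm ∘
          (Matrix.of fun (k i : Fin n) => iteratedDeriv ((k : ℕ) + 1) (f i) t).row := by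
      funext k
      rw [iteratedDeriv_cv h1]
      rfl
    rw [h4]
    refine LinearIndependent.map' ?_ (WithLp.linearEquiv 2 ℝ (Fin n → ℝ)).symm.toLinearMap
      (LinearEquiv.ker _)
    rw [Matrix.linearIndependent_rows_iff_isUnit, ← Matrix.mulVec_injective_iff_isUnit]
    intro a b hab
    have h5 : a - b = 0 := by
      apply h3 t
      intro k hk
      have h6 := congrFun hab ⟨k, hk⟩
      simp only [Matrix.mulVec, dotProduct, Matrix.of_apply] at h6
      rw [← sub_eq_zero, ← Finset.sum_sub_distrib] at h6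
      rw [← h6]
      refine Finset.sum_congr rfl fun i _ => ?_
      simp only [Pi.sub_apply]
      ring
    exact sub_eq_zero.1 h5

/-- primitives of smooth functions are smooth -/
lemma contDiff_primitive {g : ℝ → ℝ} (hg : ContDiff ℝ ∞ g) :
    ContDiff ℝ ∞ (fun t => ∫ s in (0:ℝ)..t, g s) := by
  have h1 : ∀ t, HasDerivAt (fun t => ∫ s in (0:ℝ)..t, g s) (g t) t := fun t =>
    intervalIntegral.integral_hasDerivAt_right (hg.continuous.intervalIntegrable _ _)
      (hg.continuous.stronglyMeasurableAtFilter _ _) hg.continuous.continuousAt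
  rw [contDiff_infty_iff_deriv]
  refine ⟨fun t => (h1 t).differentiableAt, ?_⟩
  have h2 : deriv (fun t => ∫ s in (0:ℝ)..t, g s) = g := funext fun t => (h1 t).deriv
  rw [h2]
  exact hg

/-- a smooth `2π`-periodic solution of `F'' + F = G` for a `π`-periodic `G` -/
lemma exists_solution {G : ℝ → ℝ} (hG : ContDiff ℝ ∞ G) (hp : Function.Periodic G Real.pi) :
    ∃ F : ℝ → ℝ, ContDiff ℝ ∞ F ∧ Function.Periodic F (2 * Real.pi) ∧
      ∀ k t, iteratedDeriv (k + 2) F t + iteratedDeriv k F t = iteratedDeriv k G t := by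
  set C : ℝ → ℝ := fun t => ∫ s in (0:ℝ)..t, Real.cos s * G s with hC
  set S : ℝ → ℝ := fun t => ∫ s in (0:ℝ)..t, Real.sin s * G s with hS
  have hcG : ContDiff ℝ ∞ (fun s => Real.cos s * G s) := Real.contDiff_cos.mul hG
  have hsG : ContDiff ℝ ∞ (fun s => Real.sin s * G s) := Real.contDiff_sin.mul hG
  have hC1 : ContDiff ℝ ∞ C := contDiff_primitive hcG
  have hS1 : ContDiff ℝ ∞ S := contDiff_primitive hsG
  have hCd : ∀ t, HasDerivAt C (Real.cos t * G t) t := fun t =>
    intervalIntegral.integral_hasDerivAt_right (hcG.continuous.intervalIntegrable _ _)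
      (hcG.continuous.stronglyMeasurableAtFilter _ _) hcG.continuous.continuousAt
  have hSd : ∀ t, HasDerivAt S (Real.sin t * G t) t := fun t =>
    intervalIntegral.integral_hasDerivAt_right (hsG.continuous.intervalIntegrable _ _)
      (hsG.continuous.stronglyMeasurableAtFilter _ _) hsG.continuous.continuousAt
  -- periodicity of the coefficients
  have hper : ∀ (u : ℝ → ℝ), Continuous u → (∀ s, u (s + Real.pi) = - u s) →
      ∀ t, (∫ s in (0:ℝ)..(t + 2 * Real.pi), u s) = ∫ s in (0:ℝ)..t, u s := by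
    intro u hu hneg t
    have hper2 : Function.Periodic u (2 * Real.pi) := by
      intro s
      rw [two_mul, ← add_assoc, hneg, hneg, neg_neg]
    have h0 : ∫ s in (0:ℝ)..(2 * Real.pi), u s = 0 := by
      rw [← intervalIntegral.integral_add_adjacent_intervals (b := Real.pi)
        (hu.intervalIntegrable _ _) (hu.intervalIntegrable _ _)]
      have h1 : ∫ s in Real.pi..(2 * Real.pi), u s = ∫ s in (0:ℝ)..Real.pi, u (s + Real.pi) := by
        rw [intervalIntegral.integral_comp_add_right (fun s => u s), zero_add, two_mul]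
      rw [h1]
      simp only [hneg, intervalIntegral.integral_neg]
      ring
    have h1 := hper2.intervalIntegral_add_eq t 0
    rw [zero_add, h0] at h1
    rw [← intervalIntegral.integral_add_adjacent_intervals (b := t)
        (hu.intervalIntegrable _ _) (hu.intervalIntegrable _ _), h1, add_zero]
  have hCp : ∀ t, C (t + 2 * Real.pi) = C t := by
    intro t
    refine hper _ hcG.continuous (fun s => ?_) t
    rw [Real.cos_add_pi, hp s]; ring
  have hSp : ∀ t, S (t + 2 * Real.pi) = S t := by
    intro t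
    refine hper _ hsG.continuous (fun s => ?_) t
    rw [Real.sin_add_pi, hp s]; ring
  refine ⟨fun t => Real.sin t * C t - Real.cos t * S t, ?_, ?_, ?_⟩
  · exact (Real.contDiff_sin.mul hC1).sub (Real.contDiff_cos.mul hS1)
  · intro t
    simp only [hCp, hSp, Real.sin_add_two_pi, Real.cos_add_two_pi]
  · have hF : ContDiff ℝ ∞ (fun t => Real.sin t * C t - Real.cos t * S t) :=
      (Real.contDiff_sin.mul hC1).sub (Real.contDiff_cos.mul hS1)
    have hd1 : deriv (fun t => Real.sin t * C t - Real.cos t * S t) =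
        fun t => Real.cos t * C t + Real.sin t * S t := by
      funext t
      have h1 := ((Real.hasDerivAt_sin t).mul (hCd t)).sub ((Real.hasDerivAt_cos t).mul (hSd t))
      have h2 := h1.deriv
      rw [show deriv (fun t => Real.sin t * C t - Real.cos t * S t) t =
        Real.cos t * C t + Real.sin t * (Real.cos t * G t) -
          (-Real.sin t * S t + Real.cos t * (Real.sin t * G t)) from h2]
      ring
    have hd2 : deriv (fun t => Real.cos t * C t + Real.sin t * S t) =
        fun t => G t - (Real.sin t * C t - Real.cos t * S t) := by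
      funext t
      have h1 := ((Real.hasDerivAt_cos t).mul (hCd t)).add ((Real.hasDerivAt_sin t).mul (hSd t))
      have h2 := h1.deriv
      rw [show deriv (fun t => Real.cos t * C t + Real.sin t * S t) t =
        -Real.sin t * C t + Real.cos t * (Real.cos t * G t) +
          (Real.cos t * S t + Real.sin t * (Real.sin t * G t)) from h2]
      have h3 := Real.sin_sq_add_cos_sq t
      linear_combination G t * h3
    intro k t
    rw [show k + 2 = (k + 1) + 1 from rfl, iteratedDeriv_succ', iteratedDeriv_succ', hd1, hd2,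
      iteratedDeriv_fun_sub ((hG.of_le (by exact_mod_cast le_top)).contDiffAt)
        ((hF.of_le (by exact_mod_cast le_top)).contDiffAt)]
    ring

/-- the fundamental step: from `ℝ^N` to `ℝ^(N+2)` -/
lemma step {N : ℕ} {f : Fin N → ℝ → ℝ} (hf : Nd N f) :
    ∃ F : Fin N → ℝ → ℝ, (∀ i, ContDiff ℝ ∞ (F i)) ∧
      (∀ i, Function.Periodic (F i) (2 * Real.pi)) ∧ ∀ δ : ℝ, δ ≠ 0 →
      Nd (N + 2) (Fin.cons Real.cos (Fin.cons Real.sin (fun i t => δ * F i t))) := by
  obtain ⟨h1, h2, h3⟩ := hf
  have hG : ∀ i, ContDiff ℝ ∞ (fun t => f i (2 * t)) := fun i =>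
    (h1 i).comp (contDiff_const.mul contDiff_id)
  have hGp : ∀ i, Function.Periodic (fun t => f i (2 * t)) Real.pi := by
    intro i t
    simp only [mul_add]
    exact h2 i _
  choose F hF1 hF2 hF3 using fun i => exists_solution (hG i) (hGp i)
  refine ⟨F, hF1, hF2, fun δ hδ => ⟨?_, ?_, ?_⟩⟩
  · intro i
    refine Fin.cases ?_ (fun i => ?_) i
    · exact Real.contDiff_cos
    · refine Fin.cases ?_ (fun i => ?_) i
      · exact Real.contDiff_sin
      · simp only [Fin.cons_succ]
        exact contDiff_const.mul (hF1 i)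
  · intro i
    refine Fin.cases ?_ (fun i => ?_) i
    · exact Real.cos_periodic
    · refine Fin.cases ?_ (fun i => ?_) i
      · exact Real.sin_periodic
      · simp only [Fin.cons_succ]
        intro t
        show δ * F i (t + 2 * Real.pi) = δ * F i t
        rw [hF2 i t]
  · intro t a ha
    -- the equations
    have hE : ∀ k < N + 2, a 0 * iteratedDeriv (k + 1) Real.cos t +
        (a 1 * iteratedDeriv (k + 1) Real.sin t +
          ∑ i : Fin N, a i.succ.succ * (δ * iteratedDeriv (k + 1) (F i) t)) = 0 := by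
      intro k hk
      have h := ha k hk
      rw [Fin.sum_univ_succ, Fin.sum_univ_succ] at h
      simp only [Fin.cons_zero, Fin.cons_succ, iteratedDeriv_const_mul_field] at h
      exact h
    have hcos : ∀ k, iteratedDeriv (k + 2) Real.cos t = - iteratedDeriv k Real.cos t := by
      intro k
      rw [show k + 2 = (k + 1) + 1 from rfl, iteratedDeriv_succ', iteratedDeriv_succ', Real.deriv_cos']
      have : deriv (fun x => -Real.sin x) = fun x => - Real.cos x := by
        funext x; simp
      rw [this, iteratedDeriv_fun_neg]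
    have hsin : ∀ k, iteratedDeriv (k + 2) Real.sin t = - iteratedDeriv k Real.sin t := by
      intro k
      rw [show k + 2 = (k + 1) + 1 from rfl, iteratedDeriv_succ', iteratedDeriv_succ', Real.deriv_sin,
        Real.deriv_cos', iteratedDeriv_fun_neg]
    have hz : (fun i : Fin N => a i.succ.succ) = 0 := by
      apply h3 (2 * t)
      intro k hk
      have e1 := hE k (by omega)
      have e2 := hE (k + 2) (by omega)
      rw [show k + 2 + 1 = (k + 1) + 2 from rfl, hcos, hsin] at e2
      have e3 : ∑ i : Fin N, a i.succ.succ * (δ * iteratedDeriv (k + 1) (F i) t) +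
          ∑ i : Fin N, a i.succ.succ * (δ * iteratedDeriv (k + 1 + 2) (F i) t) = 0 := by
        linarith
      rw [← Finset.sum_add_distrib] at e3
      have e4 : ∀ i : Fin N, a i.succ.succ * (δ * iteratedDeriv (k + 1) (F i) t) +
          a i.succ.succ * (δ * iteratedDeriv (k + 1 + 2) (F i) t) =
          (δ * 2 ^ (k + 1)) * (a i.succ.succ * iteratedDeriv (k + 1) (f i) (2 * t)) := by
        intro i
        have e5 := hF3 i (k + 1) t
        have e6 := iteratedDeriv_comp_const_mul (n := k + 1) (f := f i)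
          ((h1 i).of_le (by exact_mod_cast le_top)) 2
        have e7 := congrFun e6 t
        rw [e7] at e5
        linear_combination (a i.succ.succ * δ) * e5
      rw [Finset.sum_congr rfl (fun i _ => e4 i), ← Finset.mul_sum] at e3
      exact (mul_eq_zero.1 e3).resolve_left (by positivity)
    have hz' : ∀ i : Fin N, a i.succ.succ = 0 := fun i => congrFun hz i
    have q0 := hE 0 (by omega)
    have q1 := hE 1 (by omega)
    simp only [hz', zero_mul, Finset.sum_const_zero, add_zero] at q0 q1
    rw [zero_add, iteratedDeriv_one, iteratedDeriv_one, Real.deriv_cos', Real.deriv_sin] at q0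
    rw [show (1 : ℕ) + 1 = 0 + 2 from rfl, hcos, hsin, iteratedDeriv_zero, iteratedDeriv_zero] at q1
    have hsc := Real.sin_sq_add_cos_sq t
    have a0 : a 0 = 0 := by
      linear_combination (-Real.sin t) * q0 - Real.cos t * q1 - a 0 * hsc
    have a1 : a 1 = 0 := by
      linear_combination (Real.cos t) * q0 - Real.sin t * q1 - a 1 * hsc
    funext i
    refine Fin.cases ?_ (fun i => ?_) i
    · exact a0
    · refine Fin.cases ?_ (fun i => ?_) i
      · exact a1
      · exact hz' i

lemma nd_two : Nd 2 (Fin.cons Real.cos (Fin.cons Real.sin Fin.elim0)) := by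
  refine ⟨?_, ?_, ?_⟩
  · intro i
    fin_cases i
    · exact Real.contDiff_cos
    · exact Real.contDiff_sin
  · intro i
    fin_cases i
    · exact Real.cos_periodic
    · exact Real.sin_periodic
  · intro t a ha
    have q0 := ha 0 (by norm_num)
    have q1 := ha 1 (by norm_num)
    rw [Fin.sum_univ_two] at q0 q1
    have hcos : iteratedDeriv 2 Real.cos t = - Real.cos t := by
      rw [iteratedDeriv_succ', iteratedDeriv_one, Real.deriv_cos']
      simp
    have hsin : iteratedDeriv 2 Real.sin t = - Real.sin t := by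
      rw [iteratedDeriv_succ', iteratedDeriv_one, Real.deriv_sin, Real.deriv_cos']
    have e0 : a 0 * (- Real.sin t) + a 1 * Real.cos t = 0 := by
      have h := q0
      simp only [zero_add, iteratedDeriv_one] at h
      have e : (Fin.cons Real.cos (Fin.cons Real.sin Fin.elim0) : Fin 2 → ℝ → ℝ) 1 = Real.sin := rfl
      have e' : (Fin.cons Real.cos (Fin.cons Real.sin Fin.elim0) : Fin 2 → ℝ → ℝ) 0 = Real.cos := rfl
      rw [e, e', Real.deriv_cos', Real.deriv_sin] at h
      exact h
    have e1 : a 0 * (- Real.cos t) + a 1 * (- Real.sin t) = 0 := by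
      have h := q1
      have e : (Fin.cons Real.cos (Fin.cons Real.sin Fin.elim0) : Fin 2 → ℝ → ℝ) 1 = Real.sin := rfl
      have e' : (Fin.cons Real.cos (Fin.cons Real.sin Fin.elim0) : Fin 2 → ℝ → ℝ) 0 = Real.cos := rfl
      rw [e, e'] at h
      rw [show (1 : ℕ) + 1 = 2 from rfl, hcos, hsin] at h
      exact h
    have hsc := Real.sin_sq_add_cos_sq t
    funext i
    fin_cases i
    · show a 0 = 0
      linear_combination (-Real.sin t) * e0 - Real.cos t * e1 - a 0 * hsc
    · show a 1 = 0
      linear_combination (Real.cos t) * e0 - Real.sin t * e1 - a 1 * hsc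

/-- the space curve `(cos t + cos 2t / 2, sin t - sin 2t / 2, sin 3t)` -/
noncomputable def b0 (t : ℝ) : ℝ := Real.cos t + Real.cos (2 * t) / 2
noncomputable def b1 (t : ℝ) : ℝ := Real.sin t - Real.sin (2 * t) / 2
noncomputable def b2 (t : ℝ) : ℝ := Real.sin (3 * t)

lemma hasDerivAt_sin_mul (k t : ℝ) : HasDerivAt (fun t => Real.sin (k * t)) (k * Real.cos (k * t)) t := by
  have h1 : HasDerivAt (fun t : ℝ => k * t) (k * 1) t := (hasDerivAt_id t).const_mul k
  exact ((Real.hasDerivAt_sin (k * t)).comp t h1).congr_deriv (by ring)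

lemma hasDerivAt_cos_mul (k t : ℝ) : HasDerivAt (fun t => Real.cos (k * t)) (-(k * Real.sin (k * t))) t := by
  have h1 : HasDerivAt (fun t : ℝ => k * t) (k * 1) t := (hasDerivAt_id t).const_mul k
  exact ((Real.hasDerivAt_cos (k * t)).comp t h1).congr_deriv (by ring)

lemma deriv_b0 : deriv b0 = fun t => - Real.sin t - Real.sin (2 * t) := by
  funext t
  have h := (Real.hasDerivAt_cos t).add ((hasDerivAt_cos_mul 2 t).div_const 2)
  have h2 : deriv b0 t = _ := h.deriv
  rw [h2]; ring

lemma deriv_b0' : deriv (fun t => - Real.sin t - Real.sin (2 * t)) =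
    fun t => - Real.cos t - 2 * Real.cos (2 * t) := by
  funext t
  have h := ((Real.hasDerivAt_sin t).neg).sub (hasDerivAt_sin_mul 2 t)
  exact h.deriv

lemma deriv_b0'' : deriv (fun t => - Real.cos t - 2 * Real.cos (2 * t)) =
    fun t => Real.sin t + 4 * Real.sin (2 * t) := by
  funext t
  have h := ((Real.hasDerivAt_cos t).neg).sub ((hasDerivAt_cos_mul 2 t).const_mul 2)
  have h2 : deriv (fun t => - Real.cos t - 2 * Real.cos (2 * t)) t = _ := h.deriv
  rw [h2]; ring

lemma deriv_b1 : deriv b1 = fun t => Real.cos t - Real.cos (2 * t) := by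
  funext t
  have h := (Real.hasDerivAt_sin t).sub ((hasDerivAt_sin_mul 2 t).div_const 2)
  have h2 : deriv b1 t = _ := h.deriv
  rw [h2]; ring

lemma deriv_b1' : deriv (fun t => Real.cos t - Real.cos (2 * t)) =
    fun t => - Real.sin t + 2 * Real.sin (2 * t) := by
  funext t
  have h := (Real.hasDerivAt_cos t).sub (hasDerivAt_cos_mul 2 t)
  have h2 : deriv (fun t => Real.cos t - Real.cos (2 * t)) t = _ := h.deriv
  rw [h2]; ring

lemma deriv_b1'' : deriv (fun t => - Real.sin t + 2 * Real.sin (2 * t)) =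
    fun t => - Real.cos t + 4 * Real.cos (2 * t) := by
  funext t
  have h := ((Real.hasDerivAt_sin t).neg).add ((hasDerivAt_sin_mul 2 t).const_mul 2)
  have h2 : deriv (fun t => - Real.sin t + 2 * Real.sin (2 * t)) t = _ := h.deriv
  rw [h2]; ring

lemma deriv_b2 : deriv b2 = fun t => 3 * Real.cos (3 * t) := by
  funext t
  exact (hasDerivAt_sin_mul 3 t).deriv

lemma deriv_b2' : deriv (fun t => 3 * Real.cos (3 * t)) = fun t => - 9 * Real.sin (3 * t) := by
  funext t
  have h2 : deriv (fun t => 3 * Real.cos (3 * t)) t = _ := ((hasDerivAt_cos_mul 3 t).const_mul 3).deriv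
  rw [h2]; ring

lemma deriv_b2'' : deriv (fun t => - 9 * Real.sin (3 * t)) = fun t => - 27 * Real.cos (3 * t) := by
  funext t
  have h2 : deriv (fun t => - 9 * Real.sin (3 * t)) t = _ := ((hasDerivAt_sin_mul 3 t).const_mul (-9)).deriv
  rw [h2]; ring

lemma det_b (t : ℝ) :
    Matrix.det !![- Real.sin t - Real.sin (2 * t), Real.cos t - Real.cos (2 * t), 3 * Real.cos (3 * t);
      - Real.cos t - 2 * Real.cos (2 * t), - Real.sin t + 2 * Real.sin (2 * t), - 9 * Real.sin (3 * t);
      Real.sin t + 4 * Real.sin (2 * t), - Real.cos t + 4 * Real.cos (2 * t), - 27 * Real.cos (3 * t)]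
      = -27 - 6 * Real.cos (3 * t) ^ 2 + 6 * Real.cos (3 * t) := by
  have hsc := Real.sin_sq_add_cos_sq t
  rw [Matrix.det_fin_three]
  simp only [Matrix.of_apply, Matrix.cons_val', Matrix.cons_val_zero, Matrix.cons_val_one,
    Matrix.cons_val_fin_one, Matrix.cons_val]
  rw [Real.cos_two_mul, Real.sin_two_mul, Real.cos_three_mul, Real.sin_three_mul]
  linear_combination (-27 + 72 * Real.cos t + 18 * Real.cos t ^ 2 - 456 * Real.cos t ^ 3
    - 168 * Real.cos t ^ 4 + 480 * Real.cos t ^ 5 - 108 * Real.sin t ^ 2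
    + 432 * Real.sin t ^ 2 * Real.cos t ^ 2) * hsc

lemma nd_three : Nd 3 ![b0, b1, b2] := by
  have c0 : ContDiff ℝ ∞ b0 := by
    unfold b0
    exact Real.contDiff_cos.add ((Real.contDiff_cos.comp (contDiff_const.mul contDiff_id)).div_const 2)
  have c1 : ContDiff ℝ ∞ b1 := by
    unfold b1
    exact Real.contDiff_sin.sub ((Real.contDiff_sin.comp (contDiff_const.mul contDiff_id)).div_const 2)
  have c2 : ContDiff ℝ ∞ b2 := by
    unfold b2
    exact Real.contDiff_sin.comp (contDiff_const.mul contDiff_id)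
  refine ⟨?_, ?_, ?_⟩
  · intro i
    fin_cases i
    · exact c0
    · exact c1
    · exact c2
  · intro i
    fin_cases i
    · intro t
      show b0 (t + 2 * Real.pi) = b0 t
      unfold b0
      rw [Real.cos_add_two_pi, show 2 * (t + 2 * Real.pi) = 2 * t + (2 : ℕ) * (2 * Real.pi) by push_cast; ring,
        Real.cos_add_nat_mul_two_pi]
    · intro t
      show b1 (t + 2 * Real.pi) = b1 t
      unfold b1
      rw [Real.sin_add_two_pi, show 2 * (t + 2 * Real.pi) = 2 * t + (2 : ℕ) * (2 * Real.pi) by push_cast; ring,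
        Real.sin_add_nat_mul_two_pi]
    · intro t
      show b2 (t + 2 * Real.pi) = b2 t
      unfold b2
      rw [show 3 * (t + 2 * Real.pi) = 3 * t + (3 : ℕ) * (2 * Real.pi) by push_cast; ring,
        Real.sin_add_nat_mul_two_pi]
  · intro t a ha
    have q0 := ha 0 (by norm_num)
    have q1 := ha 1 (by norm_num)
    have q2 := ha 2 (by norm_num)
    rw [Fin.sum_univ_three] at q0 q1 q2
    simp only [zero_add, show (1 : ℕ) + 1 = 2 from rfl, show (2 : ℕ) + 1 = 3 from rfl,
      Matrix.cons_val_zero, Matrix.cons_val_one, Matrix.cons_val,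
      iteratedDeriv_succ', iteratedDeriv_zero, deriv_b0, deriv_b0', deriv_b0'', deriv_b1, deriv_b1',
      deriv_b1'', deriv_b2, deriv_b2', deriv_b2''] at q0 q1 q2
    have hdet : Matrix.det !![- Real.sin t - Real.sin (2 * t), Real.cos t - Real.cos (2 * t), 3 * Real.cos (3 * t);
      - Real.cos t - 2 * Real.cos (2 * t), - Real.sin t + 2 * Real.sin (2 * t), - 9 * Real.sin (3 * t);
      Real.sin t + 4 * Real.sin (2 * t), - Real.cos t + 4 * Real.cos (2 * t), - 27 * Real.cos (3 * t)] ≠ 0 := by
      rw [det_b]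
      nlinarith [sq_nonneg (Real.cos (3 * t) - 1 / 2)]
    refine Matrix.eq_zero_of_mulVec_eq_zero hdet ?_
    funext i
    fin_cases i
    · simp [Matrix.mulVec, dotProduct, Fin.sum_univ_three]; linarith
    · simp [Matrix.mulVec, dotProduct, Fin.sum_univ_three]; linarith
    · simp [Matrix.mulVec, dotProduct, Fin.sum_univ_three]; linarith

/-- nondegenerate closed curves exist in all dimensions at least two -/
lemma exists_nd : ∀ n : ℕ, 2 ≤ n → ∃ f : Fin n → ℝ → ℝ, Nd n f := by
  intro n
  induction n using Nat.strong_induction_on with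
  | _ n ih =>
    intro hn
    rcases Nat.lt_or_ge n 4 with h | h
    · interval_cases n
      · exact ⟨_, nd_two⟩
      · exact ⟨_, nd_three⟩
    · obtain ⟨N, rfl⟩ : ∃ N, n = N + 2 := ⟨n - 2, by omega⟩
      obtain ⟨f, hf⟩ := ih N (by omega) (by omega)
      obtain ⟨F, -, -, h3⟩ := step hf
      exact ⟨_, h3 1 one_ne_zero⟩

/-- periodic continuous functions are bounded -/
lemma exists_bound {E : Type*} [NormedAddCommGroup E] {f : ℝ → E} (hf : Continuous f)
    (hp : Function.Periodic f (2 * Real.pi)) : ∃ C, 0 ≤ C ∧ ∀ t, ‖f t‖ ≤ C := by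
  have h := (hp.compact_of_continuous (by positivity) hf).isBounded
  obtain ⟨C, hC⟩ := h.exists_norm_le
  exact ⟨max C 0, le_max_right _ _, fun t => (hC _ ⟨t, rfl⟩).trans (le_max_left _ _)⟩

lemma periodic_iteratedDeriv {E : Type*} [NormedAddCommGroup E] [NormedSpace ℝ E] {f : ℝ → E} {c : ℝ}
    (hp : Function.Periodic f c) (k : ℕ) : Function.Periodic (iteratedDeriv k f) c := by
  induction k with
  | zero => simpa using hp
  | succ k ih =>
    intro t
    rw [iteratedDeriv_succ, ← deriv_comp_add_const]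
    congr 1
    funext s
    exact ih s

theorem perturbable {n : ℕ} (hn : 4 ≤ n) : IsPerturbable n 1 := by
  intro K ε hε
  obtain ⟨N, rfl⟩ : ∃ N, n = N + 2 := ⟨n - 2, by omega⟩
  obtain ⟨f, hf⟩ := exists_nd N (by omega)
  obtain ⟨F, hF1, hF2, hF3⟩ := step hf
  -- the perturbation as a curve
  set H : Fin (N + 2) → ℝ → ℝ := Fin.cons (fun _ => 0) (Fin.cons (fun _ => 0) F) with hH
  have hHs : ∀ i, ContDiff ℝ ∞ (H i) := by
    intro i
    refine Fin.cases ?_ (fun i => ?_) i
    · exact contDiff_const
    · refine Fin.cases ?_ (fun i => ?_) i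
      · exact contDiff_const
      · exact hF1 i
  have hHp : ∀ i, Function.Periodic (H i) (2 * Real.pi) := by
    intro i
    refine Fin.cases ?_ (fun i => ?_) i
    · intro t; rfl
    · refine Fin.cases ?_ (fun i => ?_) i
      · intro t; rfl
      · exact hF2 i
  have hHc : ContDiff ℝ ∞ (cv H) := contDiff_cv hHs
  have hHcp : Function.Periodic (cv H) (2 * Real.pi) := by
    intro t; simp only [cv]; congr 1; funext i; exact hHp i t
  have hb : ∀ k, ∃ C, 0 ≤ C ∧ ∀ t, ‖iteratedDeriv k (cv H) t‖ ≤ C := fun k =>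
    exists_bound (hHc.continuous_iteratedDeriv k (by exact_mod_cast le_top))
      (periodic_iteratedDeriv hHcp k)
  choose C hC0 hC using hb
  set B : ℝ := ∑ k ∈ Finset.range (K + 1), C k with hB
  have hB0 : 0 ≤ B := Finset.sum_nonneg fun k _ => hC0 k
  set δ : ℝ := ε / (B + 1) with hδ
  have hδ0 : 0 < δ := by positivity
  have hg := isNondegenerate_cv (hF3 δ hδ0.ne')
  refine ⟨_, hg, fun k hk t => ?_⟩
  -- the curve is the circle plus `δ` times the perturbation
  have hcirc : circleCurve (N + 2) 1 =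
      cv (Fin.cons Real.cos (Fin.cons Real.sin (fun _ _ => 0))) := by
    funext t
    simp only [circleCurve, cv]
    congr 1
    funext i
    refine Fin.cases ?_ (fun i => ?_) i
    · simp
    · refine Fin.cases ?_ (fun i => ?_) i
      · simp
      · simp
  have hsum : cv (Fin.cons Real.cos (Fin.cons Real.sin (fun i t => δ * F i t)) : Fin (N + 2) → ℝ → ℝ) =
      fun t => circleCurve (N + 2) 1 t + δ • cv H t := by
    rw [hcirc]
    funext t
    ext i
    simp only [cv, hH, PiLp.add_apply, PiLp.smul_apply, smul_eq_mul]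
    refine Fin.cases ?_ (fun i => ?_) i
    · simp
    · refine Fin.cases ?_ (fun i => ?_) i
      · simp
      · simp
  have hcs : ContDiff ℝ ∞ (circleCurve (N + 2) 1) := by
    rw [hcirc]
    apply contDiff_cv
    intro i
    refine Fin.cases ?_ (fun i => ?_) i
    · exact Real.contDiff_cos
    · refine Fin.cases ?_ (fun i => ?_) i
      · exact Real.contDiff_sin
      · exact contDiff_const
  rw [hsum, iteratedDeriv_fun_add ((hcs.of_le (by exact_mod_cast le_top)).contDiffAt)
    (((hHc.const_smul δ).of_le (by exact_mod_cast le_top)).contDiffAt), add_sub_cancel_left,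
    iteratedDeriv_fun_const_smul_field, norm_smul, Real.norm_eq_abs, abs_of_pos hδ0]
  have h1 : ‖iteratedDeriv k (cv H) t‖ ≤ B := by
    refine (hC k t).trans ?_
    exact Finset.single_le_sum (fun j _ => hC0 j) (Finset.mem_range.2 (by omega))
  calc δ * ‖iteratedDeriv k (cv H) t‖ ≤ δ * B := mul_le_mul_of_nonneg_left h1 hδ0.le
    _ < δ * (B + 1) := by nlinarith
    _ = ε := by rw [hδ]; field_simp

theorem isLeast_one {n : ℕ} (hn : 4 ≤ n) : IsLeast {m : ℕ | 1 ≤ m ∧ IsPerturbable n m} 1 :=
  ⟨⟨le_rfl, perturbable hn⟩, fun _ hm => hm.1⟩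

theorem mu_eq_one {n : ℕ} (hn : 4 ≤ n) : mu n = 1 := by
  have h := isLeast_one hn
  exact le_antisymm (Nat.sInf_le h.1) (h.2 (Nat.sInf_mem ⟨1, h.1⟩))

end Pool.Agent.W561.Frenet
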